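import Mathlib
import Pool.Agent.X191.LR.Ind
import Pool.Agent.X191.LR.Inst

/-!
# The Lang–Rohrlich conjecture: no relations of bounded degree at almost all rational points

For `t = a / q` the numbers `Γ(α t + j / N)` with integers `α ≥ 1` are values of the Gamma function at rational numbers
with denominators dividing `N q` (if `N` divides `q` and `α a + j q / N` is prime to `q` they generate a part of the field
`F_q` of the problem). The standard relations between such values are the distribution relations of Gauss; they have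
coefficients in the ring generated by the numbers `b ^ t`, `exp (2 π i t)` and constants like `π`. We consider families of
linear forms without distribution relation, and prove that for almost all points `t` (of any finite set of points of a
number field, in particular of rational numbers) there is no relation of bounded degree and polynomially bounded height,
not even an approximate one, between the values of the Gamma function, the numbers `b_k ^ t` and `exp (2 π i t)`, with
coefficients in a number field of bounded degree, and relative to arbitrary complex constants `ξ`, for instance `π`.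

Proof: the functions `Γ(α_i z + γ_i)`, `b_k ^ z`, `exp (2 π i z)` satisfy difference equations of the first order; a
relation with the least number of terms shows that two products of the multipliers are equivalent, and counting zeros in
the classes modulo `ℤ` gives a distribution relation. The passage to the values at almost all points is a theorem of the
starting library (`Pool.Agent.Y771.RP.mainS`).
-/

set_option autoImplicit false

open NumberField

namespace Pool.Agent.Results.MP_274814_nt.AlmostAllFamilies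

/-- There is no distribution relation between the linear forms `α_i x + γ_i`: no nonzero integer vector `e` satisfies
`∑ e_i = 0`, the sum over the `i` with `α_i x + γ_i ∈ ℤ`, for all complex `x`. -/
def NoDist {r : ℕ} (α : Fin r → ℕ) (γ : Fin r → ℂ) : Prop :=
  ∀ e : Fin r → ℤ, (∀ x : ℂ, ∑ᶠ (i : Fin r) (_ : ∃ z : ℤ, (α i : ℂ) * x + γ i = z), e i = 0) → e = 0

/-- The numbers `b_k` are multiplicatively independent. -/
def MulInd {s : ℕ} (b : Fin s → ℝ) : Prop := ∀ n : Fin s → ℤ, ∏ k, b k ^ n k = 1 → n = 0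

/-- The functions `Γ(α_i z + γ_i)` (`i < r`), `b_k ^ z` (`k < s`) and `exp (2 π i z)`. -/
noncomputable def value {r s : ℕ} (α : Fin r → ℕ) (γ : Fin r → ℂ) (b : Fin s → ℝ) :
    Fin r ⊕ (Fin s ⊕ Unit) → ℂ → ℂ
  | Sum.inl i => fun z => Complex.Gamma (α i * z + γ i)
  | Sum.inr (Sum.inl k) => fun z => (b k : ℂ) ^ z
  | Sum.inr (Sum.inr _) => fun z => Complex.exp (2 * Real.pi * Complex.I * z)

/-- `x = a / c` with integers `a`, `c` of the number field `F`, all of whose conjugates have absolute value at most `T`. -/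
def HeightLe (F : Type) [Field F] [NumberField F] (T : ℝ) (x : F) : Prop :=
  ∃ a c : 𝓞 F, c ≠ 0 ∧ (∀ φ : F →+* ℂ, ‖φ a‖ ≤ T ∧ ‖φ c‖ ≤ T) ∧ x = a / c

/-- The `n`-tuples `t` of elements of the finite set `X` for which there is a polynomial `P` in `n (r + s + 1)` variables,
of degree at most `d` in each of them, with coefficients of the form `∑ ξ_i ι(c_i)`, where the `c_i` are integers of `F` all
of whose conjugates have absolute value at most `T ^ A`, such that the value of `P` at the numbers `Γ(α_i t_j + γ_i)`,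
`b_k ^ t_j`, `exp (2 π i t_j)` is at most `T ^ (-B)` times the absolute value of some nonzero coefficient of `P`. -/
def Exceptional {r s g : ℕ} (n d : ℕ) (α : Fin r → ℕ) (γ : Fin r → ℂ) (b : Fin s → ℝ) (F : Type) [Field F]
    [NumberField F] (ι : F →+* ℂ) (ξ : Fin g → ℂ) (X : Finset F) (A B T : ℝ) : Set (Fin n → F) :=
  {t | (∀ j, t j ∈ X) ∧ ∃ P : MvPolynomial (Fin n × (Fin r ⊕ (Fin s ⊕ Unit))) ℂ, (∀ x, P.degreeOf x ≤ d) ∧
    (∀ u, ∃ c : Fin g → 𝓞 F, (∀ i (φ : F →+* ℂ), ‖φ (c i)‖ ≤ T ^ A) ∧ P.coeff u = ∑ i, ξ i * ι (c i)) ∧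
    ∃ u₀, P.coeff u₀ ≠ 0 ∧
      ‖MvPolynomial.aeval (fun x : Fin n × (Fin r ⊕ (Fin s ⊕ Unit)) => value α γ b x.2 (ι (t x.1))) P‖ ≤
        T ^ (-B) * ‖P.coeff u₀‖}

/-- (1) Let `α_i ≥ 1` be integers and `γ_i` complex numbers without distribution relation, `b_k > 0` multiplicatively
independent, and `L` a compact subset of `ℂ` on which no `Γ(α_i z + γ_i)` has a pole. For all `m`, `n`, `g`, `d`, `A` and
`ε > 0` there are `B`, `C`, `T₀` such that for every number field `F` of degree at most `m`, every embedding `ι`, all complex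
numbers `ξ_1, …, ξ_g`, all `T ≥ T₀` and every finite set `X` of elements of `F` in `L` of height at most `T` there are at most
`C T^ε |X|^(n - 1)` exceptional `n`-tuples of elements of `X`.
(2) There is no distribution relation for `γ_i = j_i / N`, `0 ≤ j_i < N`, if the `α_i` are prime to `N` and the pairs
`(α_i, j_i)` are different. -/
theorem result :
    (∀ (r s : ℕ) (α : Fin r → ℕ) (γ : Fin r → ℂ) (b : Fin s → ℝ), (∀ i, 1 ≤ α i) → NoDist α γ →
      (∀ k, 0 < b k) → MulInd b → ∀ L : Set ℂ, IsCompact L →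
      (∀ z ∈ L, ∀ i, ∀ k : ℕ, (α i : ℂ) * z + γ i ≠ -k) →
      ∀ (m n g d : ℕ) (A ε : ℝ), 0 < ε → ∃ B C T₀ : ℝ, ∀ (F : Type) [Field F] [NumberField F],
        Module.finrank ℚ F ≤ m → ∀ (ι : F →+* ℂ) (ξ : Fin g → ℂ) (T : ℝ), T₀ ≤ T → ∀ X : Finset F,
        (∀ x ∈ X, ι x ∈ L ∧ HeightLe F T x) →
          ((Exceptional n d α γ b F ι ξ X A B T).ncard : ℝ) ≤ C * T ^ ε * (X.card : ℝ) ^ (n - 1)) ∧
    ∀ (r N : ℕ) (α j : Fin r → ℕ), 1 ≤ N → (∀ i, 1 ≤ α i) → (∀ i, (α i).Coprime N) → (∀ i, j i < N) →
      (Function.Injective fun i => (α i, j i)) → NoDist α (fun i => (j i : ℂ) / N) := by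
  refine ⟨?_, fun r N α j hN hα hc hj hinj => Pool.Agent.X191.LR.noDist_inst N hN α j hα hc hj hinj⟩
  intro r s α γ b hα hd hb hm L hL hpole m n g d A ε hε
  obtain ⟨B, C, T₀, -, -, H⟩ := Pool.Agent.Y771.RP.mainS m n g d (Pool.Agent.X191.LR.gg α γ b) L hL
    (fun y t ht => Pool.Agent.X191.LR.gg_an α γ b hb y (hpole t ht))
    (fun t ht => Pool.Agent.X191.LR.locInd α hα γ b hb hd hm t (hpole t ht)) A ε hε
  refine ⟨B, C, T₀, fun F _ _ hF ι ξ T hT X hX => ?_⟩
  have h1 := H F hF ι ξ T hT X (fun x hx => ⟨(hX x hx).1, (hX x hx).2⟩)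
  have hv : ∀ (y : Fin r ⊕ (Fin s ⊕ Unit)) (z : ℂ), value α γ b y z = Pool.Agent.X191.LR.gg α γ b y z := by
    intro y z
    rcases y with i | k | u <;> rfl
  refine le_trans (le_of_eq ?_) h1
  congr 2
  ext t
  constructor
  · rintro ⟨hX', P, hP1, hP2, u₀, hu₀, hu⟩
    refine ⟨⟨fun j => ⟨(hX _ (hX' j)).1, (hX _ (hX' j)).2⟩, P, hP1, hP2, u₀, hu₀, ?_⟩, hX'⟩
    simp only [hv] at hu
    exact hu
  · rintro ⟨⟨-, P, hP1, hP2, u₀, hu₀, hu⟩, hX'⟩
    refine ⟨hX', P, hP1, hP2, u₀, hu₀, ?_⟩
    simp only [hv]
    exact hu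

end Pool.Agent.Results.MP_274814_nt.AlmostAllFamilies
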