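import Pool.Agent.X39.Near.MasterI
import Pool.Agent.X191.LR.Ind
import Pool.Agent.X191.LR.Inst

/-!
# The Lang–Rohrlich conjecture: no relations of bounded complexity at ALL rational points close to any number outside a set of dimension zero

For `t = a / q` the numbers `Γ(α t + j / N)` with integers `α ≥ 1` are values of the Gamma function at rational numbers
with denominators dividing `N q` (if `N` divides `q` and `α a + j q / N` is prime to `q` they generate a part of the field
`F_q` of the problem). The standard relations between such values are the distribution relations of Gauss; they have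
coefficients in the ring generated by the numbers `b ^ t`, `exp (2 π i t)` and constants like `π`. We consider families of
linear forms without distribution relation. Outside ONE set of complex numbers `x` of Hausdorff dimension `0`, for all
number fields `F ⊂ ℂ` (for instance `ℚ`), all `ω > 0`, `d` and `A` there are `B` and `T₁` such that for all `T ≥ T₁` and ALL
`t ∈ F` of height at most `T` with `|t - x| ≤ T ^ (-ω)` the numbers `Γ(α_i t + γ_i)`, `b_k ^ t` and `exp (2 π i t)` satisfy no
relation of degree at most `d` with coefficients which are polynomials of degree at most `d` in the `u_k(t) / w(t)` and in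
given complex numbers `ξ_i` (for instance `π`), with coefficients in `F` of height at most `T ^ A`, not even up to
`T ^ (-B)`. In particular this holds at the convergents of all irrational real numbers in the domain outside this set, from
some point on: at the convergents `a / q` all these values of the Gamma function, as many as one likes, are independent
in bounded complexity.
-/

set_option autoImplicit false

open MeasureTheory NumberField

namespace Pool.Agent.Results.MP_274814_nt.ApproximationsOfAllNumbers

open Pool.Agent.X39.Near (Size Dependent)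

/-- There is no distribution relation between the linear forms `α_i x + γ_i`: no nonzero integer vector `e` satisfies
`∑ e_i = 0`, the sum over the `i` with `α_i x + γ_i ∈ ℤ`, for all complex `x`. -/
def NoDist {r : ℕ} (α : Fin r → ℕ) (γ : Fin r → ℂ) : Prop :=
  ∀ e : Fin r → ℤ, (∀ x : ℂ, ∑ᶠ (i : Fin r) (_ : ∃ z : ℤ, (α i : ℂ) * x + γ i = z), e i = 0) → e = 0

/-- The numbers `b_k` are multiplicatively independent. -/
def MulInd {s : ℕ} (b : Fin s → ℝ) : Prop := ∀ n : Fin s → ℤ, ∏ k, b k ^ n k = 1 → n = 0

/-- The functions `Γ(α_i z + γ_i)` (`i < r`), `b_k ^ z` (`k < s`) and `exp (2 π i z)`. -/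
noncomputable def value {r s : ℕ} (α : Fin r → ℕ) (γ : Fin r → ℂ) (b : Fin s → ℝ) :
    Fin r ⊕ (Fin s ⊕ Unit) → ℂ → ℂ
  | Sum.inl i => fun z => Complex.Gamma (α i * z + γ i)
  | Sum.inr (Sum.inl k) => fun z => (b k : ℂ) ^ z
  | Sum.inr (Sum.inr _) => fun z => Complex.exp (2 * Real.pi * Complex.I * z)

/-- the complex numbers `z` such that no `α_i z + γ_i` is a pole of `Γ` -/
def domain {r : ℕ} (α : Fin r → ℕ) (γ : Fin r → ℂ) : Set ℂ :=
  {z | ∀ i, ∀ k : ℕ, (α i : ℂ) * z + γ i ≠ -k}

theorem domain_open {r : ℕ} (α : Fin r → ℕ) (γ : Fin r → ℂ) : IsOpen (domain α γ) := by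
  have h1 : domain α γ = ⋂ i, {z : ℂ | (Complex.Gamma ((α i : ℂ) * z + γ i))⁻¹ ≠ 0} := by
    ext z
    simp only [domain, Set.mem_ofPred_eq, Set.mem_iInter, ne_eq, inv_eq_zero, Complex.Gamma_eq_zero_iff, not_exists]
  rw [h1]
  refine isOpen_iInter_of_finite fun i => ?_
  have h2 : Continuous fun z : ℂ => (Complex.Gamma ((α i : ℂ) * z + γ i))⁻¹ :=
    Complex.differentiable_one_div_Gamma.continuous.comp (by fun_prop)
  exact isOpen_ne_fun h2 continuous_const

/-- **Theorem.** Let `α_i ≥ 1` be integers and `γ_i` complex numbers without distribution relation, `b_k > 0`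
multiplicatively independent (it is shown that there is no distribution relation for `γ_i = j_i / N`, `0 ≤ j_i < N`, if the
`α_i` are prime to `N` and the pairs `(α_i, j_i)` are different); let `u_k`, `w` be complex polynomials, `w` without zeros on
the `domain`, and `ξ_1, …, ξ_g` complex numbers. There is a set `E` of complex numbers of Hausdorff dimension `0` such that: (1) for all `x ∈ domain` outside `E`, all
number fields `F` with an embedding `ι` in `ℂ`, all `d`, `A` and `ω > 0` there are `B`, `T₁` such that for all
`T ≥ T₁` and all `t ∈ F`, quotients of integers with conjugates at most `T`, with `|ι t - x| ≤ T ^ (-ω)`, the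
values of these functions at `t` are not dependent; (2) for all irrational real `x ∈ domain` outside `E` and all `d`,
`A` there is `B` such that the values at the convergents `t` of `x` are not dependent over `ℚ`, at the level of
the denominator, from some point on. -/
theorem result :
    (∀ (r N : ℕ) (α j : Fin r → ℕ), 1 ≤ N → (∀ i, 1 ≤ α i) → (∀ i, (α i).Coprime N) → (∀ i, j i < N) →
      (Function.Injective fun i => (α i, j i)) → NoDist α (fun i => (j i : ℂ) / N)) ∧
    ∀ (r s q g : ℕ) (α : Fin r → ℕ) (γ : Fin r → ℂ) (b : Fin s → ℝ), (∀ i, 1 ≤ α i) → NoDist α γ →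
      (∀ k, 0 < b k) → MulInd b →
    ∀ (u : Fin q → Polynomial ℂ) (w : Polynomial ℂ), (∀ t ∈ domain α γ, w.eval t ≠ 0) → ∀ (ξ : Fin g → ℂ),
    ∃ E : Set ℂ, dimH E = 0 ∧
      (∀ x ∈ domain α γ, x ∉ E → ∀ (F : Type) [Field F] [NumberField F] (ι : F →+* ℂ)
        (d A : ℕ) (ω : ℝ), 0 < ω → ∃ B T₁ : ℝ, ∀ T : ℝ, T₁ ≤ T → ∀ t : F, Size F T t →
          ‖ι t - x‖ ≤ T ^ (-ω) → ¬ Dependent (value α γ b) u w ξ F ι d A B T t) ∧
      ∀ x : ℝ, Irrational x → (x : ℂ) ∈ domain α γ → (x : ℂ) ∉ E → ∀ d A : ℕ, ∃ (B : ℝ) (n₀ : ℕ), ∀ k : ℕ,
        n₀ ≤ k → ¬ Dependent (value α γ b) u w ξ ℚ (algebraMap ℚ ℂ) d A B (x.convergent k).den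
          (x.convergent k) := by
  refine ⟨fun r N α j hN hα hc hj hinj => Pool.Agent.X191.LR.noDist_inst N hN α j hα hc hj hinj, ?_⟩
  intro r s q g α γ b hα hd hb hm u w hw ξ
  have hv : value α γ b = Pool.Agent.X191.LR.gg α γ b := by
    funext y z
    rcases y with i | k | _ <;> rfl
  rw [hv]
  exact Pool.Agent.X39.Near.master (domain α γ) (domain_open α γ) _
    (fun y t ht => Pool.Agent.X191.LR.gg_an α γ b hb y ht)
    (fun t ht => Pool.Agent.X191.LR.locInd α hα γ b hb hd hm t ht) u w hw ξ

end Pool.Agent.Results.MP_274814_nt.ApproximationsOfAllNumbers
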