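import Pool.Agent.X274.LR.General

/-!
# MP_274814_nt, Q1: the inequality fails

For composite `q` the numbers `Γ(a/q)` with `a` prime to `q` satisfy, besides the reflection
formula, relations that come from Gauss's multiplication formula: if `p` is a prime dividing `q`
and `m` the prime-to-`p` part of `q`, the product of the `Γ(a/q)` over all `a` whose class modulo
`m` lies in a given coset of the group generated by `p` is algebraic over `ℚ(π)`. For `q = 14`,
`p = 2` this is `Γ(1/14) Γ(9/14) Γ(11/14) = 4 π^(3/2)`.
-/

namespace Pool.Agent.Results.MP_274814_nt.CoprimeCaseFails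

open Pool.Agent.X274.LR

/-- (1) For every positive multiple `q` of `14`, `tr.deg F_q ≤ φ(q)/2`: this is the negated form
of Q1 (with `q = 14`, say).
(2) For every `q > 2`, `tr.deg F_q - 1` is at most the number of odd Dirichlet characters `χ`
modulo `q` such that the primitive character of `χ` does not take the value `1` at a prime
dividing `q`; there are `φ(q)/2` odd characters modulo `q`. -/
theorem result :
    (∀ q : ℕ, 0 < q → 14 ∣ q →
      Algebra.trdeg ℚ (gammaField q) ≤ ((Nat.totient q / 2 : ℕ) : Cardinal)) ∧
    (∀ (q : ℕ) [NeZero q], 2 < q →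
      Algebra.trdeg ℚ (gammaField q) ≤ ((1 + Nat.card {χ : DirichletCharacter ℂ q //
        χ.Odd ∧ ∀ p : ℕ, p.Prime → p ∣ q → χ.primitiveCharacter p ≠ 1} : ℕ) : Cardinal)) :=
  ⟨fun _ hq h => multiples hq h, fun _ _ hq => general hq⟩

end Pool.Agent.Results.MP_274814_nt.CoprimeCaseFails
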