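import Pool.Agent.Results.MP_274814_nt.ApproximationsOfAllNumbers
import Pool.Agent.X174.MasterTup

/-!
# The Lang–Rohrlich conjecture: values of the Gamma function at ALL simultaneous approximations of `n` numbers

We consider `n` families of values `Γ(α_ji t_j + γ_ji)` without distribution relation, at `n` points `t_1, …, t_n` of a number
field, for instance rational numbers. For every `ω > 0` there is ONE set `E ⊂ ℂ^n` of Hausdorff dimension at most
`2 m (n - 1) / ω` such that for all `x ∈ ℂ^n` outside `E`, all number fields `F ⊂ ℂ` of degree at most `m` (for instance `ℚ`),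
all `d` and `A` there are `B` and `T₁` such that for all `T ≥ T₁` and ALL simultaneous approximations `t ∈ F^n` of `x`, of
height at most `T`, with `|t_j - x_j| ≤ T ^ (-ω)` for all `j`, the values `Γ(α_ji t_j + γ_ji)`, `b_jk ^ t_j` and
`exp (2 π i t_j)`, at all `n` points together, satisfy no relation of degree at most `d` with coefficients which are polynomials
of degree at most `d` in the `u_jk(t_j) / w_j(t_j)` and in given complex numbers `ξ_i` (for instance `π`), with coefficients in
`F` of height at most `T ^ A`, not even up to `T ^ (-B)`. For `ω > 2 m (n - 1) / n` almost all `x ∈ ℝ^n` are outside `E`; for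
`F = ℚ` and `2 - 2 / n < ω < 2` almost all `x` have approximations of this quality at every large level `T`. Some exceptions
for `n ≥ 2` are unavoidable: `x_1 = x_2` and `t_1 = t_2`.

The case `n = 1` is the result `ApproximationsOfAllNumbers`, from which the functions are taken.
-/

set_option autoImplicit false

open MeasureTheory NumberField

namespace Pool.Agent.Results.MP_274814_nt.SimultaneousApproximations

open Pool.Agent.X39.Near (Size)
open Pool.Agent.X174.NearTup (DependentT)
open ApproximationsOfAllNumbers (NoDist MulInd value domain domain_open)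

/-- **Theorem.** Let `n ≥ 1`, `m` be natural numbers; for each `j < n` let `α_ji ≥ 1` be integers and `γ_ji` complex numbers
without distribution relation, `b_jk > 0` multiplicatively independent, `u_jk`, `w_j` complex polynomials, `w_j` without
zeros on the `domain`, and let `ξ_1, …, ξ_g` be complex numbers and `ω > 0`. There is a set `E ⊂ ℂ^n` of Hausdorff dimension
at most `2 m (n - 1) / ω`, which contains almost no real point if `2 m (n - 1) < n ω`, such that for all `x` outside `E` with
`x_j` in the domains, all number fields `F` of degree at most `m` with an embedding `ι` in `ℂ` and all `d`, `A` there are `B`,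
`T₁` such that for all `T ≥ T₁` and all `t ∈ F^n`, quotients of integers with conjugates at most `T`, with
`|ι t_j - x_j| ≤ T ^ (-ω)` for all `j`, the values of these functions at `t` are not dependent. (There is no distribution
relation for `γ_i = j_i / N`, `0 ≤ j_i < N`, if the `α_i` are prime to `N` and the pairs `(α_i, j_i)` are different.) -/
theorem result :
    (∀ (r N : ℕ) (α j : Fin r → ℕ), 1 ≤ N → (∀ i, 1 ≤ α i) → (∀ i, (α i).Coprime N) → (∀ i, j i < N) →
      (Function.Injective fun i => (α i, j i)) → NoDist α (fun i => (j i : ℂ) / N)) ∧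
    ∀ (n m r s q g : ℕ), 1 ≤ n → ∀ (α : Fin n → Fin r → ℕ) (γ : Fin n → Fin r → ℂ) (b : Fin n → Fin s → ℝ),
      (∀ j i, 1 ≤ α j i) → (∀ j, NoDist (α j) (γ j)) → (∀ j k, 0 < b j k) → (∀ j, MulInd (b j)) →
    ∀ (u : Fin n → Fin q → Polynomial ℂ) (w : Fin n → Polynomial ℂ),
      (∀ j, ∀ t ∈ domain (α j) (γ j), (w j).eval t ≠ 0) → ∀ (ξ : Fin g → ℂ) (ω : ℝ), 0 < ω →
    ∃ E : Set (Fin n → ℂ), dimH E ≤ ENNReal.ofReal (2 * m * ((n : ℝ) - 1) / ω) ∧
      (2 * m * ((n : ℝ) - 1) < n * ω → ∀ᵐ x : Fin n → ℝ, (fun j => (x j : ℂ)) ∉ E) ∧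
      ∀ x : Fin n → ℂ, (∀ j, x j ∈ domain (α j) (γ j)) → x ∉ E → ∀ (F : Type) [Field F] [NumberField F],
        Module.finrank ℚ F ≤ m → ∀ (ι : F →+* ℂ) (d A : ℕ), ∃ B T₁ : ℝ, ∀ T : ℝ, T₁ ≤ T → ∀ t : Fin n → F,
          (∀ j, Size F T (t j)) → (∀ j, ‖ι (t j) - x j‖ ≤ T ^ (-ω)) →
            ¬ DependentT (fun j => value (α j) (γ j) (b j)) u w ξ F ι d A B T t := by
  refine ⟨ApproximationsOfAllNumbers.result.1, ?_⟩
  intro n m r s q g hn α γ b hα hd hb hm u w hw ξ ω hω
  have hv : ∀ j, value (α j) (γ j) (b j) = Pool.Agent.X191.LR.gg (α j) (γ j) (b j) := by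
    intro j
    funext y z
    rcases y with i | k | _ <;> rfl
  refine Pool.Agent.X174.NearTup.masterTup hn m _ (fun j => domain_open (α j) (γ j)) _
    (fun j y t ht => ?_) (fun j t ht => ?_) u w hw ξ hω
  · rw [hv]
    exact Pool.Agent.X191.LR.gg_an (α j) (γ j) (b j) (hb j) y ht
  · rw [hv]
    exact Pool.Agent.X191.LR.locInd (α j) (hα j) (γ j) (b j) (hb j) (hd j) (hm j) t ht

end Pool.Agent.Results.MP_274814_nt.SimultaneousApproximations
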